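import Mathlib
import Pool.Agent.R890.FF.Blk
import Pool.Agent.V5helper2.FF.Mod

set_option autoImplicit false

/-!
# Cographic 2-blocks of graphs with a small or dense dominating set, modulo chains (MP_aa6b05_co)

Two vertices are called close if they are joined by an edge or by two different paths with two edges.
Let `S` represent over GF(2) the cographic matroid `M*(G)` of a graph `G` with a dominating set `D`
such that every vertex of `D` is close to all but at most two of the other vertices of `D`, or more
generally of a graph which gets such a set when a chain of circuits or ears with at most four new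
edges and of doubly connected pieces is contracted.  Examples are the graphs with domination number
at most three, the graphs with total domination number at most four, and the graphs with a dominating
clique or a dominating circuit of length five.  If `S` is a 2-block then `S` has a RESTRICTION
`M*(P₁₀)` (no contraction is needed), and if it is tangential it is `M*(P₁₀)`.  The rank and the order
are unbounded.  (The Petersen graph itself has domination number three.)

Proof.  A 2-block has no zero vector, so `G` has no isthmus, and it has no flow over the group of
order four which is nowhere zero.  After the contraction of the chain let `H` be a quotient without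
such a flow and without Petersen quotient such that all proper quotients of `H` have a flow.  `H` has
at least 18 vertices of odd degree, no vertices of degree one or two and no circuits with at most four
edges (starting library `TH362/TF`, `R890/FF`).  In `H` close vertices are adjacent, so that outside
of a dominating set with three, four or five vertices `H` consists of circuits whose vertices are
joined to the vertices of this set in a periodic order, and a flow exists (starting library
`N399/DM`).  So `G` has a Petersen quotient.  The translation to blocks is the one of
`R890/FF/Blk.lean`, the chains are those of `N410/DC`.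
-/

namespace Pool.Agent.Results.MP_aa6b05_co.DominatingSet

open Finset

/-- The incidence vector of the vertex `v` over GF(2): the coordinate of an edge is the number of
its ends which are `v`, modulo 2 (so loops give 0). -/
def star {V E : Type} [DecidableEq V] (src dst : E → V) (v : V) : E → ZMod 2 :=
  fun e => (if src e = v then 1 else 0) + (if dst e = v then 1 else 0)

/-- The vectors `vec e` represent the cographic matroid of the graph: the linear relations between
them are exactly the elements of the cut space, which is spanned by the incidence vectors. -/
def RepresentsCographic {V E : Type} [DecidableEq V] [Fintype E] (src dst : E → V) {n : ℕ}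
    (vec : E → Fin n → ZMod 2) : Prop :=
  ∀ x : E → ZMod 2, ∑ e, x e • vec e = 0 ↔
    x ∈ Submodule.span (ZMod 2) (Set.range (star src dst))

/-- The simple matroid represented by the set `S` of vectors over GF(2) is a 2-block: `S` has no
zero vector and no linear map to the plane over GF(2) is nonzero on all of `S`. -/
def IsTwoBlock {n : ℕ} (S : Set (Fin n → ZMod 2)) : Prop :=
  (0 : Fin n → ZMod 2) ∉ S ∧
    ¬ ∃ L : (Fin n → ZMod 2) →ₗ[ZMod 2] (Fin 2 → ZMod 2), ∀ s ∈ S, L s ≠ 0

/-- `S` represents a tangential 2-block: it is a 2-block, and no proper minor without loops
(contract `C`, keep `T`) is a 2-block. This is the hypothesis of the frozen statement S10691. -/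
def IsTangential {n : ℕ} (S : Set (Fin n → ZMod 2)) : Prop :=
  IsTwoBlock S ∧
    ∀ C T : Set (Fin n → ZMod 2), C ⊆ S → T ⊆ S → T ≠ S →
      (∀ t ∈ T, t ∉ Submodule.span (ZMod 2) C) →
      ∃ L : (Fin n → ZMod 2) →ₗ[ZMod 2] (Fin 2 → ZMod 2),
        (∀ c ∈ C, L c = 0) ∧ ∀ t ∈ T, L t ≠ 0

/-- The cut space of the Petersen graph: vertices `0, ..., 9`, edges `0, ..., 14`. -/
def petersenCuts : Submodule (ZMod 2) (Fin 15 → ZMod 2) :=
  Submodule.span (ZMod 2) (Set.range (fun v : Fin 10 => fun k : Fin 15 =>
    if (![0,1,2,3,4,5,6,7,8,9,0,1,2,3,4] : Fin 15 → Fin 10) k = v ∨
       (![1,2,3,4,0,7,8,9,5,6,5,6,7,8,9] : Fin 15 → Fin 10) k = v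
    then (1 : ZMod 2) else 0))

/-- The edges with exactly one end in `X`. -/
def boundary {V E : Type} [DecidableEq V] [Fintype E] (s t : E → V) (X : Finset V) : Finset E :=
  univ.filter (fun e => ¬ (s e ∈ X ↔ t e ∈ X))

/-- The union of the sets `C j` with `j < i`. -/
def earlier {E : Type} [DecidableEq E] {m : ℕ} (C : Fin m → Finset E) (i : Fin m) : Finset E :=
  (univ.filter (fun j => j < i)).biUnion C

/-- `H` can be added to the chain after `F`: either (short) `H` has at most four edges outside `F`
and no bridge modulo `F`: no set `Y` of vertices without boundary edges in `F` has exactly one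
boundary edge in `H`; or (doubly connected) `H` contains two disjoint sets each of which connects,
modulo `F`, whatever `H` connects: every set `Y` of vertices without boundary edges in `F` and with
a boundary edge in `H` has boundary edges in both sets. -/
def Adds {V E : Type} [DecidableEq V] [Fintype E] [DecidableEq E] (s t : E → V)
    (F H : Finset E) : Prop :=
  ((H \ F).card ≤ 4 ∧ ∀ Y : Finset V, Disjoint (boundary s t Y) F →
    (boundary s t Y ∩ H).card ≠ 1) ∨
  ∃ T₁ T₂ : Finset E, T₁ ⊆ H ∧ T₂ ⊆ H ∧ Disjoint T₁ T₂ ∧ ∀ Y : Finset V,
    Disjoint (boundary s t Y) F → ¬ Disjoint (boundary s t Y) H →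
      ¬ Disjoint (boundary s t Y) T₁ ∧ ¬ Disjoint (boundary s t Y) T₂

/-- The vertices of the graph in which the edges of `F` are contracted (the components of `F`). -/
def Contracted {V E : Type} (s t : E → V) (F : Finset E) : Type :=
  Quot (fun x y : V => ∃ e ∈ F, s e = x ∧ t e = y)

/-- The component of `F` which contains `v`. -/
def component {V E : Type} (s t : E → V) (F : Finset E) (v : V) : Contracted s t F := Quot.mk _ v

/-- The edge `e` joins the vertices `x` and `y`. -/
def Joins {W E : Type} (s t : E → W) (e : E) (x y : W) : Prop :=
  (s e = x ∧ t e = y) ∨ (s e = y ∧ t e = x)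

/-- The vertices `x` and `y` are joined by an edge, or by two different paths with two edges (for
example, they have two common neighbours). -/
def Close {W E : Type} (s t : E → W) (x y : W) : Prop :=
  (∃ e, Joins s t e x y) ∨
    ∃ (e f e' f' : E) (a b : W), (e ≠ e' ∨ f ≠ f') ∧ Joins s t e x a ∧ Joins s t f a y ∧
      Joins s t e' x b ∧ Joins s t f' b y

/-- Every vertex outside of `D` which is an end of an edge (not a loop) is close to a vertex of `D`,
and for every vertex `d` of `D` and any three different vertices of `D` other than `d`, at least one
of the three is close to `d`. -/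
def Dominates {W E : Type} (s t : E → W) (D : Set W) : Prop :=
  (∀ x, x ∉ D → (∃ e, s e ≠ t e ∧ (s e = x ∨ t e = x)) → ∃ d ∈ D, Close s t x d) ∧
    ∀ d ∈ D, ∀ c : Fin 3 → W, Function.Injective c → (∀ i, c i ∈ D ∧ c i ≠ d) →
      ∃ i, Close s t d (c i)

/-- For some chain of sets of edges (for instance the empty chain) the graph in which its union is
contracted has a dominating set as above. -/
def HasDominatingSet {V E : Type} [Fintype V] [DecidableEq V] [Fintype E] [DecidableEq E]
    (s t : E → V) : Prop :=
  ∃ (m : ℕ) (C : Fin m → Finset E), (∀ i, Adds s t (earlier C i) (C i)) ∧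
    ∃ D, Dominates (fun e => component s t (univ.biUnion C) (s e))
      (fun e => component s t (univ.biUnion C) (t e)) D

/-- Let `S` be a set of vectors over GF(2) which represents the cographic matroid of a graph
(parallel elements are represented by the same vector) with a dominating set as above, possibly after
the contraction of a chain.  If `S` is a 2-block then `S` contains 15 different vectors which
represent the cographic matroid of the Petersen graph; if `S` is a tangential 2-block then `S` is the
cographic matroid of the Petersen graph, in the form of the frozen statement S10691. -/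
theorem result :
    ∀ (n : ℕ) (S : Set (Fin n → ZMod 2)) (V E : Type) [Fintype V] [DecidableEq V] [Fintype E]
      [DecidableEq E] (src dst : E → V) (vec : E → Fin n → ZMod 2),
      RepresentsCographic src dst vec → Set.range vec = S → HasDominatingSet src dst →
      (IsTwoBlock S → ∃ t : Fin 15 → Fin n → ZMod 2,
        Set.range t ⊆ S ∧ Function.Injective t ∧
        ∀ x : Fin 15 → ZMod 2, ∑ k, x k • t k = 0 ↔ x ∈ petersenCuts) ∧
      (IsTangential S → ∃ ψ : (Fin 15 → ZMod 2) →ₗ[ZMod 2] (Fin n → ZMod 2),
        LinearMap.ker ψ = petersenCuts ∧
        ⇑ψ '' Set.range (fun k : Fin 15 => (Pi.single k (1 : ZMod 2) : Fin 15 → ZMod 2)) = S) := by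
  intro n S V E _ _ _ _ src dst vec hv hr h7
  have hd : TH362.TF.N1 src dst Finset.univ →
      TH362.TF.NZ src dst Finset.univ ∨ TH362.TF.PQ src dst Finset.univ := by
    intro hn
    obtain ⟨m, C, hC, hO⟩ := h7
    have h1 : N410.DC.GCl V5helper2.FF.KD src dst := N410.DC.GCl.of_steps hC hO
    exact h1.flow V5helper2.FF.inh_KD hn
  have main : IsTwoBlock S → ∃ t : Fin 15 → Fin n → ZMod 2,
        Set.range t ⊆ S ∧ Function.Injective t ∧
        ∀ x : Fin 15 → ZMod 2, ∑ k, x k • t k = 0 ↔ x ∈ petersenCuts := fun h =>
    R890.FF.blk1 (hv : TH676.Blk.RepCo src dst vec) hr hd h.1 h.2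
  refine ⟨main, ?_⟩
  rintro ⟨h2, htan⟩
  obtain ⟨t, ht, _, hx⟩ := main h2
  exact R890.FF.blk2 htan ht hx

end Pool.Agent.Results.MP_aa6b05_co.DominatingSet
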