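import Mathlib
import Pool.Agent.V5helper70.FF.Blk

set_option autoImplicit false

/-!
# Cographic 2-blocks: decompositions with crowded bags, modulo chains (MP_aa6b05_co)

Let `S` represent over GF(2) the cographic matroid `M*(G)` of a graph `G` of the following kind.  Call
a set of vertices free if it does not contain all vertices of a circuit with two, three or four
edges.  For some chain (circuits or ears with at most four new edges and doubly connected pieces;
possibly the empty chain), with union `F`, the graph `G / F` has

* a tree decomposition in which every bag `B` has no free subset with six elements (with no condition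
  on the adhesion sets), or has its intersections with the neighbouring bags contained in sets
  `Z 1, ..., Z s` all of whose free subsets have at most `z i ≤ 4` elements, while the free subsets of
  `B` have at most `k` elements, where `k + ∑ max (z i - 2, 0) ≤ 17`; or
* a path decomposition in which no bag has a free subset with seven elements.

If `S` is a 2-block then it has a minor `M*(P₁₀)`, and if it is tangential it is `M*(P₁₀)`.

Proof.  For graphs without Petersen minor there is a nowhere-zero 4-flow: the classes are closed under
contractions; a graph of the class without flow and Petersen minor all of whose proper contractions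
have a flow has no circuits with at most four edges (Kempe chains, starting library `R129/Four`), so
all sets are free.  In the first case equal bags of the rooted decomposition are merged
(`V5helper70/FF/Mrg`) and the theorem on adhesion four of the starting library (`N399/TB/Adh`)
applies; in the second case the starting theorem on pathwidth five (`TH395/P5`).  The flow of the
contraction extends to `G` (`R926/SC/Mixed`), and a Petersen minor of `G / F` is one of `G`.  The
bridge to matroids is `N399/TB/Blk`, `TH676/Blk`.
-/

namespace Pool.Agent.Results.MP_aa6b05_co.MixedBags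

/-- The incidence vector of the vertex `v` over GF(2): the coordinate of an edge is the number of
its ends which are `v`, modulo 2 (so loops give 0). -/
def star {V E : Type} [DecidableEq V] (src dst : E → V) (v : V) : E → ZMod 2 :=
  fun e => (if src e = v then 1 else 0) + (if dst e = v then 1 else 0)

/-- The vectors `vec e` represent the cographic matroid of the graph: the linear relations between
them are exactly the elements of the cut space, which is spanned by the incidence vectors. -/
def RepresentsCographic {V E : Type} [DecidableEq V] [Fintype E] (src dst : E → V) {n : ℕ}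
    (vec : E → Fin n → ZMod 2) : Prop :=
  ∀ x : E → ZMod 2, ∑ e, x e • vec e = 0 ↔
    x ∈ Submodule.span (ZMod 2) (Set.range (star src dst))

/-- The simple matroid represented by the set `S` of vectors over GF(2) is a 2-block: `S` has no
zero vector and no linear map to the plane over GF(2) is nonzero on all of `S`. -/
def IsTwoBlock {n : ℕ} (S : Set (Fin n → ZMod 2)) : Prop :=
  (0 : Fin n → ZMod 2) ∉ S ∧
    ¬ ∃ L : (Fin n → ZMod 2) →ₗ[ZMod 2] (Fin 2 → ZMod 2), ∀ s ∈ S, L s ≠ 0

/-- `S` represents a tangential 2-block: it is a 2-block, and no proper minor without loops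
(contract `C`, keep `T`) is a 2-block. This is the hypothesis of the frozen statement S10691. -/
def IsTangential {n : ℕ} (S : Set (Fin n → ZMod 2)) : Prop :=
  IsTwoBlock S ∧
    ∀ C T : Set (Fin n → ZMod 2), C ⊆ S → T ⊆ S → T ≠ S →
      (∀ t ∈ T, t ∉ Submodule.span (ZMod 2) C) →
      ∃ L : (Fin n → ZMod 2) →ₗ[ZMod 2] (Fin 2 → ZMod 2),
        (∀ c ∈ C, L c = 0) ∧ ∀ t ∈ T, L t ≠ 0

/-- The cut space of the Petersen graph: vertices `0, ..., 9`, edges `0, ..., 14`. -/
def petersenCuts : Submodule (ZMod 2) (Fin 15 → ZMod 2) :=
  Submodule.span (ZMod 2) (Set.range (fun v : Fin 10 => fun k : Fin 15 =>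
    if (![0,1,2,3,4,5,6,7,8,9,0,1,2,3,4] : Fin 15 → Fin 10) k = v ∨
       (![1,2,3,4,0,7,8,9,5,6,5,6,7,8,9] : Fin 15 → Fin 10) k = v
    then (1 : ZMod 2) else 0))

/-- The edge `e` joins `x` and `y`. -/
def Joins {W E : Type} (s t : E → W) (e : E) (x y : W) : Prop :=
  (s e = x ∧ t e = y) ∨ (s e = y ∧ t e = x)

/-- All vertices of some circuit with `k + 2 = 2, 3` or `4` edges are in `S`: the vertices `v i` are
distinct, the edges `e i` are distinct, and `e i` joins `v i` and `v (i + 1)` (modulo `k + 2`). -/
def HasShortCircuit {W E : Type} (s t : E → W) (S : Set W) : Prop :=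
  ∃ k, k ≤ 2 ∧ ∃ (v : Fin (k + 2) → W) (e : Fin (k + 2) → E), Function.Injective v ∧
    Function.Injective e ∧ ∀ i, v i ∈ S ∧ Joins s t (e i) (v i) (v (i + 1))

/-- Every subset of `B` without a short circuit has at most `k` elements. -/
def FreeLE {W E : Type} (s t : E → W) (k : ℕ) (B : Set W) : Prop :=
  ∀ S : Finset W, (S : Set W) ⊆ B → ¬ HasShortCircuit s t S → S.card ≤ k

/-- A tree decomposition of the graph, with bags `bag i` for the nodes `i` of the tree `T`. -/
def IsTreeDecomposition {W E ι : Type} (s t : E → W) (T : SimpleGraph ι) (bag : ι → Set W) : Prop :=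
  T.IsTree ∧ (∀ v, ∃ i, v ∈ bag i) ∧ (∀ e, ∃ i, s e ∈ bag i ∧ t e ∈ bag i) ∧
    ∀ (i j : ι) (p : T.Walk i j), p.IsPath → ∀ k ∈ p.support, bag i ∩ bag j ⊆ bag k

/-- The condition on the bag of the node `b`: its free subsets have at most five elements, or the
intersections with the bags of the neighbouring nodes are contained in sets `Z 0, ..., Z (r - 1)`
whose free subsets have at most `z i ≤ 4` elements, the free subsets of the bag have at most `k`
elements, and `k + ∑ max (z i - 2, 0) ≤ 17` (truncated subtraction). -/
def CrowdedBag {W E ι : Type} (s t : E → W) (T : SimpleGraph ι) (bag : ι → Set W) (b : ι) : Prop :=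
  FreeLE s t 5 (bag b) ∨ ∃ (r k : ℕ) (Z : Fin r → Set W) (z : Fin r → ℕ),
    (∀ i, z i ≤ 4 ∧ FreeLE s t (z i) (Z i)) ∧ (∀ w, T.Adj b w → ∃ i, bag b ∩ bag w ⊆ Z i) ∧
      FreeLE s t k (bag b) ∧ k + ∑ i, (z i - 2) ≤ 17

/-- There is a tree decomposition all of whose bags satisfy the condition above. -/
def HasCrowdedTree {W E : Type} (s t : E → W) : Prop :=
  ∃ (ι : Type) (_ : Fintype ι) (T : SimpleGraph ι) (bag : ι → Set W),
    IsTreeDecomposition s t T bag ∧ ∀ b, CrowdedBag s t T bag b

/-- There is a path decomposition `X 0, X 1, ...` (every edge has both ends in one of the bags, and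
every vertex lies in an interval of the bags) in which the free subsets of the bags have at most six
elements. -/
def HasCrowdedPath {W E : Type} (s t : E → W) : Prop :=
  ∃ X : ℕ → Set W, (∀ e, ∃ i, s e ∈ X i ∧ t e ∈ X i) ∧
    (∀ i j k, i ≤ j → j ≤ k → X i ∩ X k ⊆ X j) ∧ ∀ i, FreeLE s t 6 (X i)

/-- The edges with exactly one end in `X`. -/
def boundary {V E : Type} [DecidableEq V] [Fintype E] (s t : E → V) (X : Finset V) : Finset E :=
  Finset.univ.filter (fun e => ¬ (s e ∈ X ↔ t e ∈ X))

/-- The union of the sets `C j` with `j < i`. -/
def earlier {E : Type} [DecidableEq E] {m : ℕ} (C : Fin m → Finset E) (i : Fin m) : Finset E :=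
  (Finset.univ.filter (fun j => j < i)).biUnion C

/-- `H` can be added to the chain after `F`: either (short) `H` has at most four edges outside `F`
and no bridge modulo `F`: no set `Y` of vertices without boundary edges in `F` has exactly one
boundary edge in `H`; or (doubly connected) `H` contains two disjoint sets each of which connects,
modulo `F`, whatever `H` connects: every set `Y` of vertices without boundary edges in `F` and with
a boundary edge in `H` has boundary edges in both sets. -/
def Adds {V E : Type} [DecidableEq V] [Fintype E] [DecidableEq E] (s t : E → V)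
    (F H : Finset E) : Prop :=
  ((H \ F).card ≤ 4 ∧ ∀ Y : Finset V, Disjoint (boundary s t Y) F →
    (boundary s t Y ∩ H).card ≠ 1) ∨
  ∃ T₁ T₂ : Finset E, T₁ ⊆ H ∧ T₂ ⊆ H ∧ Disjoint T₁ T₂ ∧ ∀ Y : Finset V,
    Disjoint (boundary s t Y) F → ¬ Disjoint (boundary s t Y) H →
      ¬ Disjoint (boundary s t Y) T₁ ∧ ¬ Disjoint (boundary s t Y) T₂

/-- The vertices of the graph `G / F` in which the edges of `F` are contracted: the components of
`F`. (The edges in `F` become loops.) -/
def Contracted {V E : Type} (s t : E → V) (F : Finset E) : Type :=
  Quot (fun x y : V => ∃ e ∈ F, s e = x ∧ t e = y)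

/-- The component of `F` which contains `v`. -/
def component {V E : Type} (s t : E → V) (F : Finset E) (v : V) : Contracted s t F := Quot.mk _ v

/-- The class of graphs: for some chain with the union `F`, the graph `G / F` has a tree or path
decomposition as above. -/
def Decomposable {V E : Type} [Fintype V] [DecidableEq V] [Fintype E] [DecidableEq E]
    (s t : E → V) : Prop :=
  ∃ (m : ℕ) (C : Fin m → Finset E), (∀ i, Adds s t (earlier C i) (C i)) ∧
    (HasCrowdedTree (fun e => component s t (Finset.univ.biUnion C) (s e))
        (fun e => component s t (Finset.univ.biUnion C) (t e)) ∨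
      HasCrowdedPath (fun e => component s t (Finset.univ.biUnion C) (s e))
        (fun e => component s t (Finset.univ.biUnion C) (t e)))

/-- Let `S` be a set of vectors over GF(2) which represents the cographic matroid of a graph as above
(parallel elements are represented by the same vector).  If `S` is a 2-block then the minor of `S`
for some `C ⊆ S` and 15 elements of `S` is the cographic matroid of the Petersen graph; if `S` is a
tangential 2-block then `S` is the cographic matroid of the Petersen graph, in the form of the frozen
statement S10691. -/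
theorem result :
    ∀ (n : ℕ) (S : Set (Fin n → ZMod 2)) (V E : Type) [Fintype V] [DecidableEq V] [Fintype E]
      [DecidableEq E] (src dst : E → V) (vec : E → Fin n → ZMod 2),
      RepresentsCographic src dst vec → Set.range vec = S → Decomposable src dst →
      (IsTwoBlock S → ∃ (C : Set (Fin n → ZMod 2)) (t : Fin 15 → Fin n → ZMod 2),
        C ⊆ S ∧ Set.range t ⊆ S ∧ Function.Injective t ∧
        ∀ x : Fin 15 → ZMod 2, ∑ k, x k • t k ∈ Submodule.span (ZMod 2) C ↔ x ∈ petersenCuts) ∧
      (IsTangential S → ∃ ψ : (Fin 15 → ZMod 2) →ₗ[ZMod 2] (Fin n → ZMod 2),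
        LinearMap.ker ψ = petersenCuts ∧
        ⇑ψ '' Set.range (fun k : Fin 15 => (Pi.single k (1 : ZMod 2) : Fin 15 → ZMod 2)) = S) := by
  intro n S V E _ _ _ _ src dst vec hv hr hD
  have hcls : ¬ TH499.TF.PM src dst → (∀ Y, (TH499.TF.dlt src dst Y).card ≠ 1) →
      TH499.TF.NZ src dst := by
    intro h1 h2
    obtain ⟨m, C, hC, hT⟩ := hD
    refine V5helper70.FF.nz_of_chain h2 h1 hC ?_
    intro ρ hρ hcut hPM
    rcases hT with ⟨ι, hι, T, bag, ⟨t1, -, t2, t3⟩, t4⟩ | ⟨X, t2, t3, t4⟩
    · exact V5helper70.FF.nz_of_HasMB (V5helper70.FF.hasMB_push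
        (s := fun e => component src dst (Finset.univ.biUnion C) (src e))
        (t := fun e => component src dst (Finset.univ.biUnion C) (dst e)) hρ t1 t2 t3 t4) hPM hcut
    · exact V5helper70.FF.nz_of_HasPB (V5helper70.FF.hasPB_push
        (s := fun e => component src dst (Finset.univ.biUnion C) (src e))
        (t := fun e => component src dst (Finset.univ.biUnion C) (dst e)) hρ t2 t3 t4) hPM hcut
  have hmain : IsTwoBlock S → ∃ (C : Set (Fin n → ZMod 2)) (t : Fin 15 → Fin n → ZMod 2),
        C ⊆ S ∧ Set.range t ⊆ S ∧ Function.Injective t ∧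
        ∀ x : Fin 15 → ZMod 2, ∑ k, x k • t k ∈ Submodule.span (ZMod 2) C ↔
          x ∈ petersenCuts := fun h =>
    V5helper2.FF.blk_minor hv hr hcls h.1 h.2
  refine ⟨hmain, fun h => ?_⟩
  obtain ⟨C, t, hC, ht, -, hx⟩ := hmain h.1
  exact N399.TB.blk_tan h.2 hC ht hx

end Pool.Agent.Results.MP_aa6b05_co.MixedBags
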